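import Pool.Agent.TH304.MI.Stm

/-!
# Project MI: the lower bounds `S_A0` and `S_A` from the x-ray inequality
-/

set_option autoImplicit false

open MeasureTheory Set Metric Filter Topology
open scoped ENNReal Real

noncomputable section

namespace Pool.Agent.TH518.MI

open Pool.Agent.TH304.MI

/-- a smooth cutoff, supported in `[δ, τ - δ]` and equal to one on `[2δ, τ - 2δ]` -/
def cut (τ δ r : ℝ) : ℝ :=
  Real.smoothTransition ((r - δ) / δ) * Real.smoothTransition ((τ - δ - r) / δ)

theorem cut_nonneg (τ δ r : ℝ) : 0 ≤ cut τ δ r :=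
  mul_nonneg (Real.smoothTransition.nonneg _) (Real.smoothTransition.nonneg _)

theorem cut_le_one (τ δ r : ℝ) : cut τ δ r ≤ 1 :=
  mul_le_one₀ (Real.smoothTransition.le_one _) (Real.smoothTransition.nonneg _)
    (Real.smoothTransition.le_one _)

theorem cut_left {τ δ r : ℝ} (hδ : 0 < δ) (h : r ≤ δ) : cut τ δ r = 0 := by
  unfold cut
  rw [Real.smoothTransition.zero_of_nonpos, zero_mul]
  exact div_nonpos_of_nonpos_of_nonneg (by linarith) hδ.le

theorem cut_right {τ δ r : ℝ} (hδ : 0 < δ) (h : τ - δ ≤ r) : cut τ δ r = 0 := by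
  unfold cut
  rw [Real.smoothTransition.zero_of_nonpos (x := (τ - δ - r) / δ), mul_zero]
  exact div_nonpos_of_nonpos_of_nonneg (by linarith) hδ.le

theorem cut_one {τ δ r : ℝ} (hδ : 0 < δ) (h1 : 2 * δ ≤ r) (h2 : r ≤ τ - 2 * δ) :
    cut τ δ r = 1 := by
  unfold cut
  rw [Real.smoothTransition.one_of_one_le, Real.smoothTransition.one_of_one_le, one_mul]
  · rw [le_div_iff₀ hδ]; linarith
  · rw [le_div_iff₀ hδ]; linarith

theorem cut_contDiff (τ δ : ℝ) : ContDiff ℝ 1 (cut τ δ) := by
  unfold cut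
  exact (Real.smoothTransition.contDiff.comp ((contDiff_id.sub contDiff_const).div_const δ)).mul
    (Real.smoothTransition.contDiff.comp ((contDiff_const.sub contDiff_id).div_const δ))

theorem sup_bound {τ C X : ℝ} {G : ℝ → ℝ} (hτ : 0 < τ)
    (hG : ∀ r ∈ Ioo 0 τ, ContDiffAt ℝ 1 G r) (hG0 : ∀ r ∈ Ioo 0 τ, 0 < G r)
    (hG1 : ∀ r ∈ Ioo 0 τ, G r ≤ 1)
    (h : ∀ s : ℝ → ℝ, ContDiff ℝ 1 s → HasCompactSupport s → tsupport s ⊆ Ioo 0 τ →
      (∀ r, 0 ≤ s r) → (∀ r ∈ Ioo 0 τ, s r ^ 2 ≤ G r) → X + 2 * ∫ r in Ioo 0 τ, s r ≤ C) :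
    X + 2 * ∫ r in (0 : ℝ)..τ, √(G r) ≤ C := by
  set δ : ℕ → ℝ := fun n => 1 / ((n : ℝ) + 1) with hδ
  have hδ0 : ∀ n, 0 < δ n := fun n => by positivity
  have hδt : Tendsto δ atTop (𝓝 0) := tendsto_one_div_add_atTop_nhds_zero_nat
  set s : ℕ → ℝ → ℝ := fun n r => √(G r) * cut τ (δ n) r with hs
  have hsup : ∀ n, Function.support (s n) ⊆ Icc (δ n) (τ - δ n) := by
    intro n r hr
    by_contra hc
    apply hr
    simp only [hs]
    rw [mem_Icc, not_and_or, not_le, not_le] at hc
    rcases hc with hc | hc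
    · rw [cut_left (hδ0 n) hc.le, mul_zero]
    · rw [cut_right (hδ0 n) hc.le, mul_zero]
  have htsup : ∀ n, tsupport (s n) ⊆ Icc (δ n) (τ - δ n) := fun n =>
    closure_minimal (hsup n) isClosed_Icc
  have hIcc : ∀ n, Icc (δ n) (τ - δ n) ⊆ Ioo 0 τ := fun n r hr =>
    ⟨(hδ0 n).trans_le hr.1, by have := hδ0 n; have := hr.2; linarith⟩
  have hcd : ∀ n, ContDiff ℝ 1 (s n) := by
    intro n
    rw [contDiff_iff_contDiffAt]
    intro r
    by_cases hr : r ∈ Ioo 0 τ
    · exact ((hG r hr).sqrt (hG0 r hr).ne').mul (cut_contDiff τ (δ n)).contDiffAt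
    · have h0 : s n =ᶠ[𝓝 r] fun _ => 0 := by
        rw [mem_Ioo, not_and_or, not_lt, not_lt] at hr
        rcases hr with hr | hr
        · have : ∀ᶠ x in 𝓝 r, x < δ n := Iio_mem_nhds (hr.trans_lt (hδ0 n))
          filter_upwards [this] with x hx
          simp only [hs]
          rw [cut_left (hδ0 n) hx.le, mul_zero]
        · have : ∀ᶠ x in 𝓝 r, τ - δ n < x := Ioi_mem_nhds (by have := hδ0 n; linarith)
          filter_upwards [this] with x hx
          simp only [hs]
          rw [cut_right (hδ0 n) hx.le, mul_zero]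
      exact contDiffAt_const.congr_of_eventuallyEq h0
  have hineq : ∀ n, X + 2 * ∫ r in Ioo 0 τ, s n r ≤ C := by
    intro n
    refine h (s n) (hcd n) ?_ ((htsup n).trans (hIcc n)) ?_ ?_
    · exact HasCompactSupport.of_support_subset_isCompact isCompact_Icc (hsup n)
    · intro r
      exact mul_nonneg (Real.sqrt_nonneg _) (cut_nonneg _ _ _)
    · intro r hr
      simp only [hs]
      rw [mul_pow, Real.sq_sqrt (hG0 r hr).le]
      have h1 : cut τ (δ n) r ^ 2 ≤ 1 := pow_le_one₀ (cut_nonneg _ _ _) (cut_le_one _ _ _)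
      have h2 := hG0 r hr
      nlinarith
  have hlim : Tendsto (fun n => ∫ r in Ioo 0 τ, s n r) atTop (𝓝 (∫ r in Ioo 0 τ, √(G r))) := by
    refine tendsto_integral_of_dominated_convergence (fun _ => 1) ?_ ?_ ?_ ?_
    · intro n
      exact (hcd n).continuous.aestronglyMeasurable
    · exact integrableOn_const (by simp) (by simp)
    · intro n
      refine (ae_restrict_iff' measurableSet_Ioo).mpr (Eventually.of_forall fun r hr => ?_)
      rw [Real.norm_eq_abs, abs_of_nonneg (mul_nonneg (Real.sqrt_nonneg _) (cut_nonneg _ _ _))]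
      have h1 : √(G r) ≤ 1 := Real.sqrt_le_one.mpr (hG1 r hr)
      exact mul_le_one₀ h1 (cut_nonneg _ _ _) (cut_le_one _ _ _)
    · refine (ae_restrict_iff' measurableSet_Ioo).mpr (Eventually.of_forall fun r hr => ?_)
      have h1 : ∀ᶠ n in atTop, δ n < min (r / 2) ((τ - r) / 2) := by
        apply hδt.eventually_lt_const
        exact lt_min (by linarith [hr.1]) (by linarith [hr.2])
      have h2 : (fun n => s n r) =ᶠ[atTop] fun _ => √(G r) := by
        filter_upwards [h1] with n hn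
        have h3 := hn.trans_le (min_le_left _ _)
        have h4 := hn.trans_le (min_le_right _ _)
        simp only [hs]
        rw [cut_one (hδ0 n) (by linarith) (by linarith), mul_one]
      exact tendsto_const_nhds.congr' h2.symm
  rw [intervalIntegral.integral_of_le hτ.le, integral_Ioc_eq_integral_Ioo]
  refine le_of_tendsto' (f := fun n => X + 2 * ∫ r in Ioo 0 τ, s n r) (x := atTop) ?_ hineq
  exact (hlim.const_mul 2).const_add X

/-- the integral over the good radii -/
theorem good_integral {A : Set ℂ} (hal : Measurable (al A)) {τ : ℝ} (hτ1 : τ ≤ 1)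
    (hgood : ∀ᵐ r ∂(volume.restrict (Ioo (0 : ℝ) τ)), 0 < al A r ∧ al A r < 2 * π)
    {s : ℝ → ℝ} (hs : tsupport s ⊆ Ioo 0 τ) :
    ∫ r in {r : ℝ | r ∈ Ioo (0 : ℝ) 1 ∧ 0 < al A r ∧ al A r < 2 * π}, s r =
      ∫ r in Ioo 0 τ, s r := by
  set S : Set ℝ := {r : ℝ | r ∈ Ioo (0 : ℝ) 1 ∧ 0 < al A r ∧ al A r < 2 * π} with hS
  have hSm : MeasurableSet S :=
    measurableSet_Ioo.inter ((measurableSet_lt measurable_const hal).inter
      (measurableSet_lt hal measurable_const))
  have h1 : ∫ r in S, s r = ∫ r in S ∩ Ioo 0 τ, s r := by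
    apply setIntegral_eq_of_subset_of_forall_sdiff_eq_zero hSm inter_subset_left
    intro x hx
    have : x ∉ tsupport s := fun hc => hx.2 ⟨hx.1, hs hc⟩
    exact image_eq_zero_of_notMem_tsupport this
  rw [h1]
  apply setIntegral_congr_set
  rw [ae_restrict_iff' measurableSet_Ioo] at hgood
  filter_upwards [hgood] with r hr
  apply propext
  constructor
  · intro h
    exact h.2
  · intro h
    exact ⟨⟨⟨h.1, h.2.trans_le hτ1⟩, hr h⟩, h⟩

theorem t_A0 (hpol : S_pol) (hxray : S_xray) : S_A0 := by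
  intro b A hA hAD C hP τ hτ hτ1 hgood
  have hal : Measurable (al A) := (hpol A hA hAD (fun _ => 0) measurable_const
    (by simp)).1
  have key := sup_bound (τ := τ) (C := C) (X := 0) (G := fun r => ((1 - r) ^ b) ^ 2) hτ
    (fun r _ => ((contDiffAt_const.sub contDiffAt_id).pow b).pow 2)
    (fun r hr => by
      have : 0 < 1 - r := by linarith [hr.2]
      positivity)
    (fun r hr => by
      have h1 : 0 ≤ 1 - r := by linarith [hr.2]
      have h2 : 1 - r ≤ 1 := by linarith [hr.1]
      exact pow_le_one₀ (by positivity) (pow_le_one₀ h1 h2))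
    (by
      intro s hs1 hs2 hs3 hs4 hs5
      have hsub : Ioo 0 τ ⊆ Ioo (0 : ℝ) 1 := Ioo_subset_Ioo_right hτ1
      have h1 := hxray b A hA hAD C hP (fun _ => 0) s contDiff_const HasCompactSupport.zero
        (by simp [tsupport]) hs1 hs2 (hs3.trans hsub) hs4
        (by
          intro r hr
          rw [zero_div, pow_mul', zero_pow two_ne_zero, add_zero]
          by_cases h : r ∈ Ioo 0 τ
          · exact hs5 r h
          · rw [image_eq_zero_of_notMem_tsupport fun hc => h (hs3 hc)]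
            rw [zero_pow two_ne_zero]
            positivity)
      rw [good_integral hal hτ1 hgood hs3] at h1
      simpa using h1)
  have h2 : ∫ r in (0 : ℝ)..τ, √(((1 - r) ^ b) ^ 2) = ∫ r in (0 : ℝ)..τ, (1 - r) ^ b := by
    apply intervalIntegral.integral_congr
    intro r hr
    rw [uIcc_of_le hτ.le] at hr
    have : 0 ≤ 1 - r := by linarith [hr.2]
    exact Real.sqrt_sq (by positivity)
  rw [zero_add, h2] at key
  exact key

end Pool.Agent.TH518.MI
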