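import Pool.Agent.TH518.MI.Low

/-!
# Project MI: the lower bound `S_A` from the x-ray inequality
-/

set_option autoImplicit false

open MeasureTheory Set Metric Filter Topology
open scoped ENNReal Real

noncomputable section

namespace Pool.Agent.TH518.MI

open Pool.Agent.TH304.MI

/-- the density of the mass, clamped -/
def fc (b : ℕ) (r : ℝ) : ℝ := max r 0 * (max (1 - r) 0) ^ b

/-- the density of the mass, cut off near `0` and `1` -/
def gd (b : ℕ) (δ r : ℝ) : ℝ := max (fc b r - δ) 0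

/-- a bump of integral one on `[t0, t0 + η]` -/
def hb (t0 η r : ℝ) : ℝ := 6 / η ^ 3 * max ((r - t0) * (t0 + η - r)) 0

theorem fc_continuous (b : ℕ) : Continuous (fc b) := by unfold fc; fun_prop

theorem fc_nonneg (b : ℕ) (r : ℝ) : 0 ≤ fc b r := by unfold fc; positivity

theorem fc_eq {b : ℕ} {r : ℝ} (h0 : 0 ≤ r) (h1 : r ≤ 1) : fc b r = r * (1 - r) ^ b := by
  unfold fc
  rw [max_eq_left h0, max_eq_left (by linarith)]

theorem gd_continuous (b : ℕ) (δ : ℝ) : Continuous (gd b δ) := by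
  have := fc_continuous b
  unfold gd
  fun_prop

theorem gd_nonneg (b : ℕ) (δ r : ℝ) : 0 ≤ gd b δ r := le_max_right _ _

theorem gd_ge (b : ℕ) (δ r : ℝ) : fc b r - δ ≤ gd b δ r := le_max_left _ _

theorem gd_le {b : ℕ} {δ r : ℝ} (hδ : 0 ≤ δ) : gd b δ r ≤ fc b r :=
  max_le (by linarith) (fc_nonneg b r)

theorem gd_left {b : ℕ} {δ r : ℝ} (hδ : 0 < δ) (h : r ≤ δ) : gd b δ r = 0 := by
  unfold gd
  apply max_eq_right
  have : fc b r ≤ δ := by
    unfold fc
    rcases le_or_gt r 0 with hr | hr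
    · rw [max_eq_right hr, zero_mul]; exact hδ.le
    · rw [max_eq_left hr.le]
      have h1 : max (1 - r) 0 ≤ 1 := max_le (by linarith) zero_le_one
      have h2 : (max (1 - r) 0) ^ b ≤ 1 := pow_le_one₀ (le_max_right _ _) h1
      calc r * (max (1 - r) 0) ^ b ≤ r * 1 := mul_le_mul_of_nonneg_left h2 hr.le
        _ ≤ δ := by linarith
  linarith

theorem gd_right {b : ℕ} (hb : 1 ≤ b) {δ r : ℝ} (hδ : 0 < δ) (h : 1 - δ ≤ r) :
    gd b δ r = 0 := by
  unfold gd
  apply max_eq_right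
  have : fc b r ≤ δ := by
    unfold fc
    rcases le_or_gt 1 r with hr | hr
    · rw [max_eq_right (a := 1 - r) (by linarith), zero_pow (by omega), mul_zero]; exact hδ.le
    · rcases le_or_gt r 0 with hr0 | hr0
      · rw [max_eq_right hr0, zero_mul]; exact hδ.le
      · rw [max_eq_left hr0.le, max_eq_left (by linarith)]
        have h1 : (1 - r) ^ b ≤ (1 - r) ^ 1 :=
          pow_le_pow_of_le_one (by linarith) (by linarith) hb
        rw [pow_one] at h1
        calc r * (1 - r) ^ b ≤ 1 * (1 - r) := mul_le_mul hr.le h1 (by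
              have : 0 ≤ 1 - r := by linarith
              positivity) zero_le_one
          _ ≤ δ := by linarith
  linarith

theorem hb_continuous (t0 η : ℝ) : Continuous (hb t0 η) := by unfold hb; fun_prop

theorem hb_nonneg {t0 η : ℝ} (hη : 0 < η) (r : ℝ) : 0 ≤ hb t0 η r := by
  unfold hb; positivity

theorem hb_left {t0 η r : ℝ} (hη : 0 < η) (h : r ≤ t0) : hb t0 η r = 0 := by
  unfold hb
  rw [max_eq_right, mul_zero]
  exact mul_nonpos_of_nonpos_of_nonneg (by linarith) (by linarith)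

theorem hb_right {t0 η r : ℝ} (hη : 0 < η) (h : t0 + η ≤ r) : hb t0 η r = 0 := by
  unfold hb
  rw [max_eq_right, mul_zero]
  exact mul_nonpos_of_nonneg_of_nonpos (by linarith) (by linarith)

theorem hb_le {t0 η : ℝ} (hη : 0 < η) (r : ℝ) : hb t0 η r ≤ 2 / η := by
  unfold hb
  have h1 : max ((r - t0) * (t0 + η - r)) 0 ≤ η ^ 2 / 4 := by
    apply max_le _ (by positivity)
    nlinarith [sq_nonneg ((r - t0) - (t0 + η - r))]
  calc 6 / η ^ 3 * max ((r - t0) * (t0 + η - r)) 0 ≤ 6 / η ^ 3 * (η ^ 2 / 4) :=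
        mul_le_mul_of_nonneg_left h1 (by positivity)
    _ = (3 / 2) / η := by field_simp; ring
    _ ≤ 2 / η := by
      apply div_le_div_of_nonneg_right _ hη.le
      norm_num

theorem hb_integral {t0 η : ℝ} (hη : 0 < η) : ∫ x in t0..(t0 + η), hb t0 η x = 1 := by
  have h1 : ∫ x in t0..(t0 + η), hb t0 η x =
      ∫ x in t0..(t0 + η), 6 / η ^ 3 * ((x - t0) * (t0 + η - x)) := by
    apply intervalIntegral.integral_congr
    intro x hx
    rw [uIcc_of_le (by linarith)] at hx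
    show hb t0 η x = _
    unfold hb
    rw [max_eq_left]
    exact mul_nonneg (by linarith [hx.1]) (by linarith [hx.2])
  rw [h1]
  have h2 : ∀ x ∈ uIcc t0 (t0 + η), HasDerivAt
      (fun x : ℝ => 6 / η ^ 3 * (η * (x - t0) ^ 2 / 2 - (x - t0) ^ 3 / 3))
      (6 / η ^ 3 * ((x - t0) * (t0 + η - x))) x := by
    intro x _
    have e1 : HasDerivAt (fun x : ℝ => x - t0) 1 x := (hasDerivAt_id x).sub_const t0
    have e2 := ((e1.pow 2).const_mul η).div_const 2
    have e3 := (e1.pow 3).div_const 3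
    have e4 := (e2.sub e3).const_mul (6 / η ^ 3)
    refine e4.congr_deriv ?_
    simp only [Nat.cast_ofNat, mul_one, pow_one, show (3 : ℕ) - 1 = 2 from rfl,
      show (2 : ℕ) - 1 = 1 from rfl]
    ring
  rw [intervalIntegral.integral_eq_sub_of_hasDerivAt h2 (by
    apply Continuous.intervalIntegrable
    fun_prop)]
  have : η ≠ 0 := hη.ne'
  field_simp
  ring

section

variable {b : ℕ} {t0 δ η κ : ℝ}

/-- the total mass of the cut off density -/
def mm (b : ℕ) (δ : ℝ) : ℝ := ∫ x in (0 : ℝ)..1, gd b δ x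

/-- the derivative of the radial field -/
def nn (b : ℕ) (t0 δ η κ r : ℝ) : ℝ := κ * (gd b δ r - mm b δ * hb t0 η r)

/-- the radial field -/
def NN (b : ℕ) (t0 δ η κ r : ℝ) : ℝ := ∫ x in (0 : ℝ)..r, nn b t0 δ η κ x

theorem nn_continuous : Continuous (nn b t0 δ η κ) := by
  have := gd_continuous b δ
  have := hb_continuous t0 η
  unfold nn
  fun_prop

theorem NN_hasDerivAt (r : ℝ) : HasDerivAt (NN b t0 δ η κ) (nn b t0 δ η κ r) r :=
  intervalIntegral.integral_hasDerivAt_right (nn_continuous.intervalIntegrable _ _)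
    (nn_continuous.stronglyMeasurableAtFilter _ _) nn_continuous.continuousAt

theorem NN_deriv : deriv (NN b t0 δ η κ) = nn b t0 δ η κ :=
  funext fun r => (NN_hasDerivAt r).deriv

theorem NN_contDiff : ContDiff ℝ 1 (NN b t0 δ η κ) := by
  rw [contDiff_one_iff_deriv, NN_deriv]
  exact ⟨fun r => (NN_hasDerivAt r).differentiableAt, nn_continuous⟩

theorem NN_eq (r : ℝ) : NN b t0 δ η κ r =
    κ * ((∫ x in (0 : ℝ)..r, gd b δ x) - mm b δ * ∫ x in (0 : ℝ)..r, hb t0 η x) := by
  unfold NN nn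
  rw [intervalIntegral.integral_const_mul, intervalIntegral.integral_sub,
    intervalIntegral.integral_const_mul]
  · exact (gd_continuous b δ).intervalIntegrable _ _
  · exact ((hb_continuous t0 η).const_mul _).intervalIntegrable _ _

theorem J_zero (hη : 0 < η) {r : ℝ} (h0 : 0 ≤ t0) (hr : r ≤ t0) :
    ∫ x in (0 : ℝ)..r, hb t0 η x = 0 := by
  have : ∫ x in (0 : ℝ)..r, hb t0 η x = ∫ x in (0 : ℝ)..r, (0 : ℝ) := by
    apply intervalIntegral.integral_congr
    intro x hx
    have h1 := hx.2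
    exact hb_left hη (h1.trans (max_le h0 hr))
  rw [this]
  simp

theorem J_one (hη : 0 < η) {r : ℝ} (h0 : 0 ≤ t0) (hr : t0 + η ≤ r) :
    ∫ x in (0 : ℝ)..r, hb t0 η x = 1 := by
  have hi : ∀ x y, IntervalIntegrable (hb t0 η) volume x y := fun x y =>
    (hb_continuous t0 η).intervalIntegrable _ _
  rw [← intervalIntegral.integral_add_adjacent_intervals (hi 0 t0) (hi t0 r),
    ← intervalIntegral.integral_add_adjacent_intervals (hi t0 (t0 + η)) (hi (t0 + η) r),
    J_zero hη h0 le_rfl, hb_integral hη]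
  have : ∫ x in (t0 + η)..r, hb t0 η x = ∫ x in (t0 + η)..r, (0 : ℝ) := by
    apply intervalIntegral.integral_congr
    intro x hx
    rw [uIcc_of_le hr] at hx
    exact hb_right hη hx.1
  rw [this]
  simp

theorem J_mem (hη : 0 < η) {r : ℝ} (h0 : 0 ≤ t0) (hr : 0 ≤ r) :
    0 ≤ ∫ x in (0 : ℝ)..r, hb t0 η x ∧ ∫ x in (0 : ℝ)..r, hb t0 η x ≤ 1 := by
  have hi : ∀ x y, IntervalIntegrable (hb t0 η) volume x y := fun x y =>
    (hb_continuous t0 η).intervalIntegrable _ _
  refine ⟨intervalIntegral.integral_nonneg hr fun x _ => hb_nonneg hη x, ?_⟩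
  rcases le_total r (t0 + η) with h | h
  · rw [← J_one (t0 := t0) hη h0 le_rfl,
      ← intervalIntegral.integral_add_adjacent_intervals (hi 0 r) (hi r (t0 + η))]
    have := intervalIntegral.integral_nonneg (μ := volume) h fun x _ => hb_nonneg (t0 := t0) hη x
    linarith
  · rw [J_one hη h0 h]

theorem U_eq (hU : S_U) {r s : ℝ} : ∫ x in r..s, x * (1 - x) ^ b = U b s - U b r := by
  rw [intervalIntegral.integral_eq_sub_of_hasDerivAt (fun x _ => (hU b).1 x)]
  apply Continuous.intervalIntegrable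
  fun_prop

theorem I_mem (hU : S_U) (hδ : 0 < δ) {r s : ℝ} (h0 : 0 ≤ r) (hrs : r ≤ s) (h1 : s ≤ 1) :
    0 ≤ ∫ x in r..s, gd b δ x ∧ ∫ x in r..s, gd b δ x ≤ U b s - U b r := by
  refine ⟨intervalIntegral.integral_nonneg hrs fun x _ => gd_nonneg b δ x, ?_⟩
  rw [← U_eq hU]
  apply intervalIntegral.integral_mono_on hrs
  · exact (gd_continuous b δ).intervalIntegrable _ _
  · apply Continuous.intervalIntegrable
    fun_prop
  · intro x hx
    rw [← fc_eq (h0.trans hx.1) (hx.2.trans h1)]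
    exact gd_le hδ.le

theorem mm_le (hU : S_U) (hδ : 0 < δ) : 0 ≤ mm b δ ∧ mm b δ ≤ m0 b := by
  have h := I_mem (b := b) hU hδ le_rfl zero_le_one le_rfl
  rw [(hU b).2.2.1, (hU b).2.1, sub_zero] at h
  exact h

/-- the bounds for the radial field -/
theorem NN_bounds (hU : S_U) (hδ : 0 < δ) (hη : 0 < η) (hκ : 0 < κ) (h0 : 0 ≤ t0) {r : ℝ}
    (hr0 : 0 ≤ r) (hr1 : r ≤ 1) :
    -(κ * (m0 b - U b r)) ≤ NN b t0 δ η κ r ∧ NN b t0 δ η κ r ≤ κ * U b r ∧
    (r ≤ t0 → 0 ≤ NN b t0 δ η κ r) ∧ (t0 + η ≤ r → NN b t0 δ η κ r ≤ 0) := by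
  have hI := I_mem (b := b) hU hδ le_rfl hr0 hr1
  have hI' := I_mem (b := b) hU hδ hr0 hr1 le_rfl
  have hJ := J_mem (t0 := t0) hη h0 hr0
  have hm := mm_le (b := b) hU hδ
  rw [(hU b).2.1, sub_zero] at hI
  rw [(hU b).2.2.1] at hI'
  have hadd : (∫ x in (0 : ℝ)..r, gd b δ x) + ∫ x in r..1, gd b δ x = mm b δ :=
    intervalIntegral.integral_add_adjacent_intervals
      ((gd_continuous b δ).intervalIntegrable _ _) ((gd_continuous b δ).intervalIntegrable _ _)
  rw [NN_eq]
  set I := ∫ x in (0 : ℝ)..r, gd b δ x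
  set I' := ∫ x in r..1, gd b δ x
  set J := ∫ x in (0 : ℝ)..r, hb t0 η x with hJdef
  have hmJ : mm b δ * J ≤ mm b δ := by nlinarith
  have hmJ0 : 0 ≤ mm b δ * J := mul_nonneg hm.1 hJ.1
  refine ⟨?_, ?_, ?_, ?_⟩
  · rw [← mul_neg]
    apply mul_le_mul_of_nonneg_left _ hκ.le
    linarith
  · apply mul_le_mul_of_nonneg_left _ hκ.le
    linarith
  · intro h
    rw [hJdef, J_zero hη h0 h, mul_zero, sub_zero]
    exact mul_nonneg hκ.le hI.1
  · intro h
    rw [hJdef, J_one hη h0 h, mul_one]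
    apply mul_nonpos_of_nonneg_of_nonpos hκ.le
    linarith

theorem NN_support (hb1 : 1 ≤ b) (hδ : 0 < δ) (hη : 0 < η) (h0 : 0 < t0) (h1 : t0 + η < 1) :
    ∃ a : ℝ, 0 < a ∧ Function.support (NN b t0 δ η κ) ⊆ Icc a (1 - a) := by
  refine ⟨min δ (min t0 (1 - (t0 + η))), lt_min hδ (lt_min h0 (by linarith)), ?_⟩
  set a := min δ (min t0 (1 - (t0 + η))) with ha
  have ha0 : 0 < a := lt_min hδ (lt_min h0 (by linarith))
  have haδ : a ≤ δ := min_le_left _ _
  have hat : a ≤ t0 := (min_le_right _ _).trans (min_le_left _ _)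
  have hae : a ≤ 1 - (t0 + η) := (min_le_right _ _).trans (min_le_right _ _)
  have hn1 : ∀ x, x ≤ a → nn b t0 δ η κ x = 0 := by
    intro x hx
    unfold nn
    rw [gd_left hδ (hx.trans haδ), hb_left hη (hx.trans hat)]
    ring
  have hn2 : ∀ x, 1 - a ≤ x → nn b t0 δ η κ x = 0 := by
    intro x hx
    unfold nn
    rw [gd_right hb1 hδ (by linarith), hb_right hη (by linarith)]
    ring
  intro r hr
  by_contra hc
  apply hr
  rw [mem_Icc, not_and_or, not_le, not_le] at hc
  rcases hc with hc | hc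
  · unfold NN
    have : ∫ x in (0 : ℝ)..r, nn b t0 δ η κ x = ∫ x in (0 : ℝ)..r, (0 : ℝ) := by
      apply intervalIntegral.integral_congr
      intro x hx
      exact hn1 x (hx.2.trans (max_le ha0.le hc.le))
    rw [this]
    simp
  · have h2 : NN b t0 δ η κ 1 = 0 := by
      rw [NN_eq, J_one hη h0.le h1.le]
      unfold mm
      ring
    have h3 : NN b t0 δ η κ r = NN b t0 δ η κ 1 + ∫ x in (1 : ℝ)..r, nn b t0 δ η κ x := by
      unfold NN
      rw [intervalIntegral.integral_add_adjacent_intervals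
        (nn_continuous.intervalIntegrable _ _) (nn_continuous.intervalIntegrable _ _)]
    have h4 : ∫ x in (1 : ℝ)..r, nn b t0 δ η κ x = ∫ x in (1 : ℝ)..r, (0 : ℝ) := by
      apply intervalIntegral.integral_congr
      intro x hx
      exact hn2 x ((le_min (by linarith) hc.le).trans hx.1)
    rw [h3, h2, h4]
    simp

end

theorem integrableOn_mul_al {A : Set ℂ} (hal : Measurable (al A))
    (halb : ∀ r, 0 ≤ al A r ∧ al A r ≤ 2 * π) {g : ℝ → ℝ} (hg : Continuous g) :
    IntegrableOn (fun r => g r * al A r) (Ioo (0 : ℝ) 1) := by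
  have h1 : IntegrableOn g (Ioo (0 : ℝ) 1) :=
    (hg.integrableOn_Icc (a := 0) (b := 1)).mono_set Ioo_subset_Icc_self
  refine h1.mul_bdd (c := 2 * π) hal.aestronglyMeasurable (Eventually.of_forall fun r => ?_)
  rw [Real.norm_eq_abs, abs_of_nonneg (halb r).1]
  exact (halb r).2

/-- the main inequality before the limits -/
theorem pre_bound (hpol : S_pol) (hU : S_U) (hmono : S_mono) (hxray : S_xray) {b : ℕ}
    (hb1 : 1 ≤ b) {A : Set ℂ} (hA : MeasurableSet A) (hAD : A ⊆ D1) {C : ℝ}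
    (hP : P2 b (D1 \ {0}) A C) {t0 τ κ δ η : ℝ} (hτ : 0 < τ) (hτt : τ ≤ t0) (ht1 : t0 < 1)
    (hκ : 0 < κ) (hδ : 0 < δ) (hη : 0 < η) (hη1 : t0 + η < 1)
    (hk1 : ∀ r, t0 ≤ r → r ≤ t0 + η → κ * U b r ≤ r * (1 - r) ^ b)
    (hk0 : κ * U b t0 < t0 * (1 - t0) ^ b)
    (hk2 : κ * (m0 b - U b t0) < t0 * (1 - t0) ^ b)
    (hgood : ∀ᵐ r ∂(volume.restrict (Ioo (0 : ℝ) τ)), 0 < al A r ∧ al A r < 2 * π)
    {s : ℝ → ℝ} (hs1 : ContDiff ℝ 1 s) (hs2 : HasCompactSupport s)
    (hs3 : tsupport s ⊆ Ioo 0 τ) (hs4 : ∀ r, 0 ≤ s r)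
    (hs5 : ∀ r ∈ Ioo 0 τ, s r ^ 2 ≤ (1 - r) ^ (2 * b) - (κ * U b r / r) ^ 2) :
    κ * ms b A - 2 * π * κ * δ - κ * m0 b * (2 * (η⁻¹ * ∫ r in t0..(t0 + η), al A r)) +
      2 * ∫ r in Ioo 0 τ, s r ≤ C := by
  have ht0 : 0 < t0 := hτ.trans_le hτt
  obtain ⟨hal, halb, -⟩ := hpol A hA hAD (fun _ => 0) measurable_const (by simp)
  obtain ⟨a, ha0, hsupp⟩ := NN_support (b := b) (t0 := t0) (κ := κ) hb1 hδ hη ht0 hη1
  have hI : Icc a (1 - a) ⊆ Ioo (0 : ℝ) 1 := fun r hr => ⟨ha0.trans_le hr.1, by linarith [hr.2]⟩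
  have hts : tsupport (NN b t0 δ η κ) ⊆ Ioo (0 : ℝ) 1 :=
    (closure_minimal hsupp isClosed_Icc).trans hI
  have hcs : HasCompactSupport (NN b t0 δ η κ) :=
    HasCompactSupport.of_support_subset_isCompact isCompact_Icc hsupp
  -- lower range
  have hlow : ∀ r, 0 < r → r ≤ t0 → κ * U b r ≤ r * (1 - r) ^ b := by
    intro r hr0 hrt
    obtain ⟨e1, -, e3, -⟩ := hmono b r t0 hr0 hrt ht1
    have hpos : 0 < t0 * (1 - t0) ^ b := by
      have : 0 < 1 - t0 := by linarith
      positivity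
    have hfr : 0 ≤ r * (1 - r) ^ b := by
      have : 0 ≤ 1 - r := by linarith
      positivity
    have e4 : (t0 * (1 - t0) ^ b) * (κ * U b r) ≤ (t0 * (1 - t0) ^ b) * (r * (1 - r) ^ b) := by
      calc (t0 * (1 - t0) ^ b) * (κ * U b r) = κ * ((t0 * (1 - t0) ^ b) * U b r) := by ring
        _ ≤ κ * ((r * (1 - r) ^ b) * U b t0) := mul_le_mul_of_nonneg_left e1 hκ.le
        _ = (r * (1 - r) ^ b) * (κ * U b t0) := by ring
        _ ≤ (r * (1 - r) ^ b) * (t0 * (1 - t0) ^ b) := mul_le_mul_of_nonneg_left hk0.le hfr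
        _ = _ := by ring
    exact le_of_mul_le_mul_left e4 hpos
  have hhigh : ∀ r, t0 ≤ r → r < 1 → κ * (m0 b - U b r) ≤ r * (1 - r) ^ b := by
    intro r hrt hr1
    obtain ⟨-, e2, -, e3⟩ := hmono b t0 r ht0 hrt hr1
    obtain ⟨-, -, -, e3'⟩ := hmono b t0 t0 ht0 le_rfl ht1
    have hfr : 0 ≤ r * (1 - r) ^ b := by
      have : 0 ≤ 1 - r := by linarith
      have : 0 ≤ r := ht0.le.trans hrt
      positivity
    have e4 : (m0 b - U b t0) * (κ * (m0 b - U b r)) ≤ (m0 b - U b t0) * (r * (1 - r) ^ b) := by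
      calc (m0 b - U b t0) * (κ * (m0 b - U b r)) = (κ * (m0 b - U b t0)) * (m0 b - U b r) := by
            ring
        _ ≤ (t0 * (1 - t0) ^ b) * (m0 b - U b r) := mul_le_mul_of_nonneg_right hk2.le e3.le
        _ ≤ (r * (1 - r) ^ b) * (m0 b - U b t0) := e2
        _ = _ := by ring
    exact le_of_mul_le_mul_left e4 e3'
  have hNabs : ∀ r ∈ Ioo (0 : ℝ) 1, |NN b t0 δ η κ r| ≤ r * (1 - r) ^ b := by
    intro r hr
    obtain ⟨n1, n2, n3, n4⟩ := NN_bounds (b := b) (t0 := t0) hU hδ hη hκ ht0.le hr.1.le hr.2.le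
    have hfr : 0 ≤ r * (1 - r) ^ b := by
      have : 0 ≤ 1 - r := by linarith [hr.2]
      have := hr.1.le
      positivity
    rw [abs_le]
    rcases le_or_gt r t0 with h | h
    · exact ⟨by linarith [n3 h], n2.trans (hlow r hr.1 h)⟩
    · refine ⟨by linarith [hhigh r h.le hr.2], ?_⟩
      rcases le_or_gt (t0 + η) r with h' | h'
      · exact (n4 h').trans hfr
      · exact n2.trans (hk1 r h.le h'.le)
  have key := hxray b A hA hAD C hP (NN b t0 δ η κ) s NN_contDiff hcs hts hs1 hs2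
    (hs3.trans (Ioo_subset_Ioo_right (hτt.trans ht1.le))) hs4 (by
      intro r hr
      by_cases h : r ∈ Ioo 0 τ
      · have e1 := hs5 r h
        obtain ⟨n1, n2, n3, n4⟩ := NN_bounds (b := b) (t0 := t0) hU hδ hη hκ ht0.le hr.1.le hr.2.le
        have e2 : 0 ≤ NN b t0 δ η κ r := n3 (h.2.le.trans hτt)
        have e3 : NN b t0 δ η κ r / r ≤ κ * U b r / r := div_le_div_of_nonneg_right n2 hr.1.le
        have e4 : 0 ≤ NN b t0 δ η κ r / r := div_nonneg e2 hr.1.le
        have e5 : (NN b t0 δ η κ r / r) ^ 2 ≤ (κ * U b r / r) ^ 2 := pow_le_pow_left₀ e4 e3 2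
        linarith
      · rw [image_eq_zero_of_notMem_tsupport fun hc => h (hs3 hc), zero_pow two_ne_zero, zero_add]
        have e1 := hNabs r hr
        have e2 : |NN b t0 δ η κ r / r| ≤ (1 - r) ^ b := by
          rw [abs_div, abs_of_pos hr.1, div_le_iff₀ hr.1]
          linarith
        rw [← sq_abs, pow_mul']
        exact pow_le_pow_left₀ (abs_nonneg _) e2 2)
  rw [good_integral hal (hτt.trans ht1.le) hgood hs3, NN_deriv] at key
  -- the integral of the divergence part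
  have hms : ms b A = ∫ r in Ioo (0 : ℝ) 1, (fc b r) * al A r := by
    have h1 := (hpol A hA hAD (fun r => (1 - r) ^ b) (by fun_prop) (by
      have : Continuous fun z : ℂ => (1 - ‖z‖) ^ b := by fun_prop
      exact (this.continuousOn.integrableOn_compact (isCompact_closedBall (0 : ℂ) 1)).mono_set
        ball_subset_closedBall)).2.2
    unfold ms
    rw [h1]
    apply setIntegral_congr_fun measurableSet_Ioo
    intro r hr
    show (1 - r) ^ b * r * al A r = fc b r * al A r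
    rw [fc_eq hr.1.le hr.2.le]
    ring
  have hm := mm_le (b := b) hU hδ
  have hnn : κ * ms b A - 2 * π * κ * δ - κ * m0 b * (2 * (η⁻¹ * ∫ r in t0..(t0 + η), al A r)) ≤
      ∫ r in Ioo (0 : ℝ) 1, nn b t0 δ η κ r * al A r := by
    have hi1 := integrableOn_mul_al hal halb (fc_continuous b)
    have hi2 : IntegrableOn (fun _ : ℝ => 2 * π * κ * δ) (Ioo (0 : ℝ) 1) :=
      (continuous_const.integrableOn_Icc (a := 0) (b := 1)).mono_set Ioo_subset_Icc_self
    have hi3 := integrableOn_mul_al hal halb (hb_continuous t0 η)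
    have hi4 := integrableOn_mul_al hal halb (nn_continuous (b := b) (t0 := t0) (δ := δ) (η := η)
      (κ := κ))
    have hi6 : IntegrableOn (fun r => κ * (fc b r * al A r) - 2 * π * κ * δ) (Ioo (0 : ℝ) 1) :=
      (hi1.const_mul κ).sub hi2
    have hi7 : IntegrableOn (fun r => κ * (fc b r * al A r) - 2 * π * κ * δ -
        κ * m0 b * (hb t0 η r * al A r)) (Ioo (0 : ℝ) 1) := hi6.sub (hi3.const_mul _)
    have e1 : ∫ r in Ioo (0 : ℝ) 1, (κ * (fc b r * al A r) - 2 * π * κ * δ -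
        κ * m0 b * (hb t0 η r * al A r)) ≤ ∫ r in Ioo (0 : ℝ) 1, nn b t0 δ η κ r * al A r := by
      apply setIntegral_mono_on hi7 hi4 measurableSet_Ioo
      intro r hr
      unfold nn
      have g1 := gd_ge b δ r
      have g2 := (halb r).1
      have g3 := (halb r).2
      have g4 := hb_nonneg (t0 := t0) hη r
      have g5 : (fc b r - δ) * al A r ≤ gd b δ r * al A r := mul_le_mul_of_nonneg_right g1 g2
      have g6 : δ * al A r ≤ δ * (2 * π) := mul_le_mul_of_nonneg_left g3 hδ.le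
      have g7 : mm b δ * (hb t0 η r * al A r) ≤ m0 b * (hb t0 η r * al A r) :=
        mul_le_mul_of_nonneg_right hm.2 (mul_nonneg g4 g2)
      have g8 : fc b r * al A r - 2 * π * δ - m0 b * (hb t0 η r * al A r) ≤
          (gd b δ r - mm b δ * hb t0 η r) * al A r := by nlinarith
      have g9 := mul_le_mul_of_nonneg_left g8 hκ.le
      calc _ = κ * (fc b r * al A r - 2 * π * δ - m0 b * (hb t0 η r * al A r)) := by ring
        _ ≤ κ * ((gd b δ r - mm b δ * hb t0 η r) * al A r) := g9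
        _ = _ := by ring
    have e2 : ∫ r in Ioo (0 : ℝ) 1, (κ * (fc b r * al A r) - 2 * π * κ * δ -
        κ * m0 b * (hb t0 η r * al A r)) = κ * ms b A - 2 * π * κ * δ -
          κ * m0 b * ∫ r in Ioo (0 : ℝ) 1, hb t0 η r * al A r := by
      have e0 : ∫ r in Ioo (0 : ℝ) 1, κ * m0 b * (hb t0 η r * al A r) =
          κ * m0 b * ∫ r in Ioo (0 : ℝ) 1, hb t0 η r * al A r := integral_const_mul _ _
      rw [integral_sub hi6 (hi3.const_mul _), e0,
        integral_sub (hi1.const_mul κ) hi2, integral_const_mul, ← hms]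
      simp
    have e3 : ∫ r in Ioo (0 : ℝ) 1, hb t0 η r * al A r ≤
        2 * (η⁻¹ * ∫ r in t0..(t0 + η), al A r) := by
      have hsub : Ioo t0 (t0 + η) ⊆ Ioo (0 : ℝ) 1 := Ioo_subset_Ioo ht0.le hη1.le
      have f1 : ∫ r in Ioo (0 : ℝ) 1, hb t0 η r * al A r =
          ∫ r in Ioo t0 (t0 + η), hb t0 η r * al A r := by
        apply setIntegral_eq_of_subset_of_forall_sdiff_eq_zero measurableSet_Ioo hsub
        intro x hx
        have : x ≤ t0 ∨ t0 + η ≤ x := by
          by_contra hc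
          push Not at hc
          exact hx.2 ⟨hc.1, hc.2⟩
        rcases this with h | h
        · rw [hb_left hη h, zero_mul]
        · rw [hb_right hη h, zero_mul]
      have hi5 : IntegrableOn (al A) (Ioo (0 : ℝ) 1) := by
        have := integrableOn_mul_al hal halb (g := fun _ => (1 : ℝ)) continuous_const
        simpa using this
      rw [f1, intervalIntegral.integral_of_le (by linarith), integral_Ioc_eq_integral_Ioo,
        ← integral_const_mul, ← integral_const_mul]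
      apply setIntegral_mono_on (hi3.mono_set hsub)
        (((hi5.mono_set hsub).const_mul _).const_mul _) measurableSet_Ioo
      intro r _
      calc hb t0 η r * al A r ≤ (2 / η) * al A r :=
            mul_le_mul_of_nonneg_right (hb_le hη r) (halb r).1
        _ = _ := by rw [div_eq_mul_inv]; ring
    have e4 : 0 ≤ κ * m0 b := mul_nonneg hκ.le (hm.1.trans hm.2)
    have e5 := mul_le_mul_of_nonneg_left e3 e4
    linarith
  linarith

theorem t_A (hpol : S_pol) (hU : S_U) (hmono : S_mono) (hxray : S_xray) : S_A := by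
  intro b hb1 A hA hAD C hP t0 τ κ hτ hτt ht1 hκ hk0 hk2 hdens hgood
  have ht0 : 0 < t0 := hτ.trans_le hτt
  have hUc : Continuous (U b) := by
    rw [continuous_iff_continuousAt]
    exact fun r => ((hU b).1 r).continuousAt
  -- small η
  have hev : ∀ᶠ η in 𝓝[>] (0 : ℝ), ∀ r, t0 ≤ r → r ≤ t0 + η → κ * U b r ≤ r * (1 - r) ^ b := by
    have h1 : ∀ᶠ r in 𝓝 t0, κ * U b r < r * (1 - r) ^ b := by
      have c1 : Continuous fun r => κ * U b r := by fun_prop
      have c2 : Continuous fun r : ℝ => r * (1 - r) ^ b := by fun_prop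
      exact c1.continuousAt.eventually_lt c2.continuousAt hk0
    obtain ⟨ε, hε, hball⟩ := Metric.eventually_nhds_iff.mp h1
    have h2 : ∀ᶠ η in 𝓝[>] (0 : ℝ), η < ε := by
      exact mem_nhdsWithin_of_mem_nhds (Iio_mem_nhds hε)
    filter_upwards [h2] with η hη r hr1 hr2
    apply (hball _).le
    rw [Real.dist_eq, abs_of_nonneg (by linarith)]
    linarith
  have hev2 : ∀ᶠ η in 𝓝[>] (0 : ℝ), t0 + η < 1 := by
    have h2 : ∀ᶠ η in 𝓝[>] (0 : ℝ), η < 1 - t0 :=
      mem_nhdsWithin_of_mem_nhds (Iio_mem_nhds (by linarith))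
    filter_upwards [h2] with η hη
    linarith
  have hpos : ∀ᶠ η in 𝓝[>] (0 : ℝ), 0 < η := self_mem_nhdsWithin
  -- positivity of the radicand
  have hlow : ∀ r ∈ Ioo 0 τ, κ * U b r / r < (1 - r) ^ b ∧ 0 ≤ κ * U b r / r := by
    intro r hr
    obtain ⟨e1, -, e3, -⟩ := hmono b r t0 hr.1 (hr.2.le.trans hτt) ht1
    have hpos : 0 < t0 * (1 - t0) ^ b := by
      have : 0 < 1 - t0 := by linarith
      positivity
    have hfr : 0 < r * (1 - r) ^ b := by
      have : 0 < 1 - r := by linarith [hr.2]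
      have := hr.1
      positivity
    have e4 : (t0 * (1 - t0) ^ b) * (κ * U b r) < (t0 * (1 - t0) ^ b) * (r * (1 - r) ^ b) := by
      calc (t0 * (1 - t0) ^ b) * (κ * U b r) = κ * ((t0 * (1 - t0) ^ b) * U b r) := by ring
        _ ≤ κ * ((r * (1 - r) ^ b) * U b t0) := mul_le_mul_of_nonneg_left e1 hκ.le
        _ = (r * (1 - r) ^ b) * (κ * U b t0) := by ring
        _ < (r * (1 - r) ^ b) * (t0 * (1 - t0) ^ b) := mul_lt_mul_of_pos_left hk0 hfr
        _ = _ := by ring
    have e5 := lt_of_mul_lt_mul_left e4 hpos.le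
    refine ⟨?_, div_nonneg (mul_nonneg hκ.le e3.le) hr.1.le⟩
    rw [div_lt_iff₀ hr.1]
    linarith
  have key := sup_bound (τ := τ) (C := C) (X := κ * ms b A)
    (G := fun r => (1 - r) ^ (2 * b) - (κ * U b r / r) ^ 2) hτ
    (fun r hr => by
      have c1 : ContDiff ℝ 1 (U b) := by
        unfold U
        fun_prop
      have c2 : ContDiffAt ℝ 1 (fun r => κ * U b r / r) r :=
        (contDiffAt_const.mul c1.contDiffAt).div contDiffAt_id hr.1.ne'
      exact ((contDiffAt_const.sub contDiffAt_id).pow _).sub (c2.pow 2))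
    (fun r hr => by
      obtain ⟨e1, e2⟩ := hlow r hr
      have e3 : (κ * U b r / r) ^ 2 < ((1 - r) ^ b) ^ 2 := pow_lt_pow_left₀ e1 e2 two_ne_zero
      rw [pow_mul']
      linarith)
    (fun r hr => by
      have h1 : 0 ≤ 1 - r := by linarith [hr.2]
      have h2 : 1 - r ≤ 1 := by linarith [hr.1]
      have h3 : (1 - r) ^ (2 * b) ≤ 1 := pow_le_one₀ h1 h2
      have h4 := sq_nonneg (κ * U b r / r)
      linarith)
    (by
      intro s hs1 hs2 hs3 hs4 hs5
      -- first the limit η → 0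
      have hstep : ∀ δ : ℝ, 0 < δ → κ * ms b A - 2 * π * κ * δ + 2 * ∫ r in Ioo 0 τ, s r ≤ C := by
        intro δ hδ
        have hlim : Tendsto (fun η : ℝ => κ * ms b A - 2 * π * κ * δ -
            κ * m0 b * (2 * (η⁻¹ * ∫ r in t0..(t0 + η), al A r)) + 2 * ∫ r in Ioo 0 τ, s r)
            (𝓝[>] 0) (𝓝 (κ * ms b A - 2 * π * κ * δ - κ * m0 b * (2 * 0) +
              2 * ∫ r in Ioo 0 τ, s r)) :=
          (((hdens.const_mul 2).const_mul (κ * m0 b)).const_sub _).add_const _
        have hle := le_of_tendsto hlim (b := C) (by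
          filter_upwards [hev, hev2, hpos] with η h1 h2 h3
          exact pre_bound hpol hU hmono hxray hb1 hA hAD hP hτ hτt ht1 hκ hδ h3 h2 h1 hk0 hk2
            hgood hs1 hs2 hs3 hs4 hs5)
        simpa using hle
      have hlim2 : Tendsto (fun δ : ℝ => κ * ms b A - 2 * π * κ * δ + 2 * ∫ r in Ioo 0 τ, s r)
          (𝓝[>] 0) (𝓝 (κ * ms b A - 2 * π * κ * 0 + 2 * ∫ r in Ioo 0 τ, s r)) := by
        apply Tendsto.mono_left _ nhdsWithin_le_nhds
        apply Continuous.tendsto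
        fun_prop
      have hle := le_of_tendsto hlim2 (b := C) (by
        filter_upwards [hpos] with δ hδ
        exact hstep δ hδ)
      simpa using hle)
  exact key

end Pool.Agent.TH518.MI
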